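import Pool.Agent.T9h34.Q.Spec5

/-!
# Building circuits gate by gate
-/

set_option autoImplicit false

namespace Pool.Agent.T9h67.QC

open Finset
open Pool.Agent.PC34 (prob withClique)
open Pool.Agent.T9h34 (graphInput)
open Pool.Agent.HC34 (srcs IsLevel DepthLE)
open Pool.Agent.T9h34.Q
open Pool.Agent.T9h35.RW

variable {ι : Type}

theorem runGates_concat (x : ι → Bool) (gs : List (Gate ι)) (g : Gate ι) :
    runGates x (gs ++ [g]) = runGates x gs ++ [g.eval x (runGates x gs)] := by
  simp [runGates, List.foldl_append]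

theorem length_run (x : ι → Bool) (gs : List (Gate ι)) : (runGates x gs).length = gs.length := by
  induction gs using List.reverseRecOn with
  | nil => simp [runGates]
  | append_singleton gs g ih => rw [runGates_concat]; simp [ih]

theorem eval_old (x : ι → Bool) (gs : List (Gate ι)) (g : Gate ι) (a : Src ι)
    (h : ∀ j, a = .gate j → j < gs.length) :
    a.eval x (runGates x (gs ++ [g])) = a.eval x (runGates x gs) := by
  cases a with
  | input i => rfl
  | const c => rfl
  | gate j =>
    have hj := h j rfl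
    simp only [Src.eval]
    rw [runGates_concat, List.getD_append _ _ _ _ (by rw [length_run]; exact hj)]

theorem eval_new (x : ι → Bool) (gs : List (Gate ι)) (g : Gate ι) :
    (Src.gate gs.length : Src ι).eval x (runGates x (gs ++ [g])) =
      g.eval x (runGates x gs) := by
  simp only [Src.eval]
  rw [runGates_concat, List.getD_append_right _ _ _ _ (by rw [length_run]), length_run]
  simp

/-- add a gate to a list of gates -/
theorem add_gate {f s D T ℓ D' T' : ℕ} {𝓕 : Set (((ι → Bool) → ℝ) × ℕ)}
    {gs : List (Gate ι)} {lev : ℕ → ℕ} (h1 : gs.length ≤ s)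
    (h2 : (gs.map (fun g => g.tests.length)).sum = T) (h3 : ∀ g ∈ gs, g.FanIn f 1)
    (h4 : IsLevel (⟨gs, (.const 0, 0)⟩ : Circuit ι) lev) (h5 : ∀ j < gs.length, lev j < D)
    (h6 : ∀ p ∈ 𝓕, Comp gs lev p.1 p.2) (g : Gate ι) (F : (ι → Bool) → ℝ)
    (hg : g.FanIn f 1) (hs : ∀ i, Src.gate i ∈ srcs g → i < gs.length ∧ lev i < ℓ)
    (hT : T' = T + g.tests.length) (hF : ∀ x, g.eval x (runGates x gs) = F x) (hD : D ≤ D')
    (hℓ : ℓ + 1 ≤ D') : Prog f (s + 1) D' T' (insert (F, ℓ + 1) 𝓕) := by
  obtain ⟨lev', hlev⟩ : ∃ lev' : ℕ → ℕ, lev' = fun j => if j = gs.length then ℓ else lev j :=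
    ⟨_, rfl⟩
  have hn : lev' gs.length = ℓ := by rw [hlev]; simp
  have ho : ∀ j < gs.length, lev' j = lev j := fun j hj => by rw [hlev]; simp [hj.ne]
  refine ⟨gs ++ [g], lev', ?_, ?_, ?_, ?_, ?_, ?_⟩
  · simp only [List.length_append, List.length_cons, List.length_nil]
    omega
  · simp only [List.map_append, List.sum_append, List.map_cons, List.map_nil, List.sum_cons,
      List.sum_nil]
    omega
  · intro g' hg'
    rw [List.mem_append, List.mem_singleton] at hg'
    rcases hg' with hg' | rfl
    · exact h3 g' hg'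
    · exact hg
  · intro i j g' hj hi hij
    have hj' : (gs ++ [g])[j]? = some g' := hj
    rcases lt_trichotomy j gs.length with hjl | hjl | hjl
    · rw [List.getElem?_append_left hjl] at hj'
      rw [ho i (hij.trans hjl), ho j hjl]
      exact h4 i j g' hj' hi hij
    · subst hjl
      rw [List.getElem?_append_right le_rfl] at hj'
      simp only [Nat.sub_self, List.getElem?_cons_zero, Option.some.injEq] at hj'
      subst hj'
      rw [hn, ho i hij]
      exact (hs i hi).2
    · rw [List.getElem?_eq_none (by simp; omega)] at hj'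
      cases hj'
  · intro j hj
    simp only [List.length_append, List.length_cons, List.length_nil] at hj
    rcases Nat.lt_or_ge j gs.length with hjl | hjl
    · rw [ho j hjl]
      exact (h5 j hjl).trans_le hD
    · have : j = gs.length := by omega
      rw [this, hn]
      omega
  · intro p hp
    rcases hp with rfl | hp
    · refine ⟨.gate gs.length, ?_, fun x => ?_⟩
      · intro j hj
        cases hj
        refine ⟨by simp, ?_⟩
        rw [hn]
        exact Nat.lt_succ_self ℓ
      · rw [eval_new, hF]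
    · obtain ⟨a, ha, hax⟩ := h6 p hp
      refine ⟨a, ?_, fun x => ?_⟩
      · intro j hj
        obtain ⟨k1, k2⟩ := ha j hj
        refine ⟨by simp only [List.length_append]; omega, ?_⟩
        rw [ho j k1]
        exact k2
      · rw [eval_old x gs g a fun j hj => (ha j hj).1, hax]

/-- (X0) -/
theorem stP0 : StP0 := by
  intro ι f
  refine ⟨[], fun _ => 0, by simp, by simp, by simp, ?_, by simp, ?_⟩
  · intro i j g hj
    simp at hj
  · rintro ⟨F, ℓ⟩ (⟨i, rfl⟩ | ⟨c, rfl⟩)
    · exact ⟨.input i, (fun j hj => nomatch hj), fun x => rfl⟩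
    · exact ⟨.const c, (fun j hj => nomatch hj), fun x => rfl⟩

/-- (X1) -/
theorem stP1 : StP1 := by
  intro ι f s D T ℓ D' 𝓕 ps φ ⟨gs, lev, h1, h2, h3, h4, h5, h6⟩ hps hf hφ hD hℓ
  -- the sources
  have key : ∃ as : List (Src ι), as.length = ps.length ∧
      (∀ a ∈ as, ∀ j, a = .gate j → j < gs.length ∧ lev j < ℓ) ∧
      ∀ x, as.map (fun a => a.eval x (runGates x gs)) = ps.map (fun p => p.1 x) := by
    clear hf
    induction ps with
    | nil => exact ⟨[], by simp, by simp, by simp⟩
    | cons p ps ih =>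
      obtain ⟨as, i1, i2, i3⟩ := ih fun q hq => hps q (List.mem_cons_of_mem _ hq)
      obtain ⟨hp, hp2⟩ := hps p List.mem_cons_self
      obtain ⟨a, ha, hax⟩ := h6 p hp
      refine ⟨a :: as, by simp [i1], ?_, fun x => ?_⟩
      · intro b hb j hj
        rw [List.mem_cons] at hb
        rcases hb with rfl | hb
        · exact ⟨(ha j hj).1, (ha j hj).2.trans_le hp2⟩
        · exact i2 b hb j hj
      · rw [List.map_cons, List.map_cons, i3 x, hax x]
  obtain ⟨as, i1, i2, i3⟩ := key
  refine add_gate h1 h2 h3 h4 h5 h6 (.mono as φ) _ ⟨by rw [i1]; exact hf, hφ⟩ ?_ ?_ ?_ hD hℓ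
  · intro i hi
    exact i2 _ hi i rfl
  · simp [Gate.tests]
  · intro x
    show φ (as.map (fun a => a.eval x (runGates x gs))) = _
    rw [i3 x]

/-- (X2) -/
theorem stP2 : StP2 := by
  intro ι f s D T ℓ D' 𝓕 F θ ⟨gs, lev, h1, h2, h3, h4, h5, h6⟩ hF hD hℓ
  obtain ⟨a, ha, hax⟩ := h6 _ hF
  refine add_gate h1 h2 h3 h4 h5 h6 (.other [(a, θ)] fun l => !(l.getD 0 false)) _ ?_ ?_ ?_ ?_
    hD hℓ
  · simp [Gate.FanIn]
  · intro i hi
    simp only [srcs, List.map_cons, List.map_nil, List.mem_singleton] at hi
    exact ha i hi.symm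
  · simp [Gate.tests]
  · intro x
    have h7 : a.eval x (runGates x gs) = F x := hax x
    simp only [Gate.eval, List.map_cons, List.map_nil, Test.eval, h7]
    by_cases h : θ ≤ F x <;> simp [h]

end Pool.Agent.T9h67.QC
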