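import Pool.Agent.T9h67.QC.X012

/-!
# Sums by binary trees
-/

set_option autoImplicit false

namespace Pool.Agent.T9h67.QC

open Finset
open Pool.Agent.HC34 (srcs IsLevel DepthLE)
open Pool.Agent.T9h34.Q
open Pool.Agent.T9h35.RW

variable {ι : Type}

theorem prog_mono {f s s' D D' T : ℕ} {𝓕 𝓖 : Set (((ι → Bool) → ℝ) × ℕ)}
    (h : Prog f s D T 𝓕) (hs : s ≤ s') (hD : D ≤ D') (hF : 𝓖 ⊆ 𝓕) : Prog f s' D' T 𝓖 := by
  obtain ⟨gs, lev, h1, h2, h3, h4, h5, h6⟩ := h
  exact ⟨gs, lev, h1.trans hs, h2, h3, h4, fun j hj => (h5 j hj).trans_le hD,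
    fun p hp => h6 p (hF hp)⟩

theorem nondec_sum : Nondecreasing (fun l : List ℝ => l.sum) := fun _ _ h => h.sum_le_sum

/-- add a finite family of sums of two functions -/
theorem add_pairs {J : Type} (u v : J → (ι → Bool) → ℝ) {f D T ℓ D' : ℕ} (hf : 2 ≤ f)
    (hD : D ≤ D') (hℓ : ℓ + 1 ≤ D') (t : Finset J) :
    ∀ {s : ℕ} {𝓕 : Set (((ι → Bool) → ℝ) × ℕ)}, Prog f s D T 𝓕 →
    (∀ j, (u j, ℓ) ∈ 𝓕) → (∀ j, (v j, ℓ) ∈ 𝓕) →
    Prog f (s + t.card) D' T
      (𝓕 ∪ {p | ∃ j ∈ t, p = ((fun x => u j x + v j x), ℓ + 1)}) := by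
  classical
  induction t using Finset.induction_on with
  | empty =>
    intro s 𝓕 h _ _
    refine prog_mono h (by simp) hD ?_
    rintro p (hp | ⟨j, hj, -⟩)
    · exact hp
    · simp at hj
  | insert a t ha ih =>
    intro s 𝓕 h hu hv
    have h1 := ih h hu hv
    have h2 := stP1 ι f (s + t.card) D' T ℓ D' _ [(u a, ℓ), (v a, ℓ)] (fun l => l.sum) h1 (by
      intro p hp
      simp only [List.mem_cons, List.not_mem_nil, or_false] at hp
      rcases hp with rfl | rfl
      · exact ⟨Or.inl (hu a), le_rfl⟩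
      · exact ⟨Or.inl (hv a), le_rfl⟩) (by simpa using hf) nondec_sum le_rfl hℓ
    refine prog_mono h2 (by rw [Finset.card_insert_of_notMem ha]; omega) le_rfl ?_
    rintro p (hp | ⟨j, hj, rfl⟩)
    · exact Or.inr (Or.inl hp)
    · rw [Finset.mem_insert] at hj
      rcases hj with rfl | hj
      · left
        simp
      · exact Or.inr (Or.inr ⟨j, hj, rfl⟩)

/-- (X3) -/
theorem stP3 : StP3 := by
  intro ι K _ f s D T ℓ L
  induction L generalizing s D ℓ with
  | zero =>
    intro D' 𝓕 G h _ hG hD _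
    refine prog_mono h (by omega) hD ?_
    rintro p (hp | ⟨k, rfl⟩)
    · exact hp
    · have : (fun x => ∑ i : Fin (2 ^ 0), G k i x) = G k 0 := by
        funext x
        exact Fin.sum_univ_one (fun i : Fin 1 => G k i x)
      simp only [this, Nat.add_zero]
      exact hG k 0
  | succ L ih =>
    intro D' 𝓕 G h hf hG hD hℓ
    obtain ⟨e, -⟩ : ∃ e : Fin (2 ^ L) × Fin 2 ≃ Fin (2 ^ (L + 1)), True :=
      ⟨finProdFinEquiv.trans (finCongr (pow_succ 2 L).symm), trivial⟩
    have h1 := add_pairs (J := K × Fin (2 ^ L)) (fun j => G j.1 (e (j.2, 0)))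
      (fun j => G j.1 (e (j.2, 1))) hf hD (show ℓ + 1 ≤ D' by omega) Finset.univ h
      (fun j => hG _ _) (fun j => hG _ _)
    have h2 := ih (s + (Finset.univ : Finset (K × Fin (2 ^ L))).card) D' (ℓ + 1) D' _
      (fun k i x => G k (e (i, 0)) x + G k (e (i, 1)) x) h1 hf (fun k i =>
        Or.inr ⟨(k, i), Finset.mem_univ _, rfl⟩) le_rfl (by omega)
    refine prog_mono h2 ?_ le_rfl ?_
    · rw [Finset.card_univ, Fintype.card_prod, Fintype.card_fin, pow_succ]
      ring_nf
      exact le_rfl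
    · rintro p (hp | ⟨k, rfl⟩)
      · exact Or.inl (Or.inl hp)
      · right
        refine ⟨k, ?_⟩
        have h3 : (fun x => ∑ i, (G k (e (i, 0)) x + G k (e (i, 1)) x)) =
            fun x => ∑ i, G k i x := by
          funext x
          rw [← Equiv.sum_comp e (fun i => G k i x), Fintype.sum_prod_type]
          exact Finset.sum_congr rfl fun i _ =>
            (Fin.sum_univ_two (fun b : Fin 2 => G k (e (i, b)) x)).symm
        have h4 : ℓ + 1 + L = ℓ + (L + 1) := by ring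
        simp only [h3, h4]

end Pool.Agent.T9h67.QC
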